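import Mathlib
import Pool.Agent.R863.Forms

/-!
# A form of degree 44 which vanishes on the curve `t ↦ (e₁, e₂)(t, t²¹, t⁻²²)`
-/

set_option autoImplicit false

open MvPolynomial

namespace Pool.Agent.R863.A2

open Forms

/-- the product of all `X i ^ 21 - X j`, `i ≠ j` -/
noncomputable def PP : MvPolynomial (Fin 3) ℂ :=
  ∏ p ∈ (Finset.univ : Finset (Fin 3)).offDiag, (X p.1 ^ 21 - X p.2)

lemma PP_symm : PP.IsSymmetric := by
  intro e
  unfold PP
  rw [map_prod]
  refine Finset.prod_equiv (e.prodCongr e) ?_ ?_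
  · rintro ⟨i, j⟩
    simp
  · rintro ⟨i, j⟩ _
    simp

lemma eval_PP (x : Fin 3 → ℂ) : eval x PP =
    (x 0 ^ 21 - x 1) * ((x 0 ^ 21 - x 2) * ((x 1 ^ 21 - x 0) * ((x 1 ^ 21 - x 2) *
      ((x 2 ^ 21 - x 0) * (x 2 ^ 21 - x 1))))) := by
  unfold PP
  have h : (Finset.univ : Finset (Fin 3)).offDiag =
      {(0, 1), (0, 2), (1, 0), (1, 2), (2, 0), (2, 1)} := by decide
  rw [h]
  rw [Finset.prod_insert (by decide), Finset.prod_insert (by decide), Finset.prod_insert (by decide),
    Finset.prod_insert (by decide), Finset.prod_insert (by decide), Finset.prod_singleton]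
  simp

/-- the elementary symmetric functions -/
def e1 (x : Fin 3 → ℂ) : ℂ := x 0 + x 1 + x 2
/-- the elementary symmetric functions -/
def e2 (x : Fin 3 → ℂ) : ℂ := x 0 * x 1 + x 0 * x 2 + x 1 * x 2
/-- the elementary symmetric functions -/
def e3 (x : Fin 3 → ℂ) : ℂ := x 0 * x 1 * x 2

lemma exists_q : ∃ q : MvPolynomial (Fin 3) ℂ, ∀ x, eval x PP = eval ![e1 x, e2 x, e3 x] q := by
  obtain ⟨q, hq⟩ := esymmAlgHom_surjective (σ := Fin 3) (n := 3) ℂ (by simp) ⟨PP, PP_symm⟩
  refine ⟨q, fun x => ?_⟩
  have h1 : PP = aeval (fun i : Fin 3 => esymm (Fin 3) ℂ (i + 1)) q := by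
    rw [← esymmAlgHom_apply, hq]
  rw [h1, eval_aeval]
  congr 2
  ext i
  have h2 : (Finset.univ : Finset (Fin 3)).powersetCard 2 = {{0, 1}, {0, 2}, {1, 2}} := by decide
  have h3 : (Finset.univ : Finset (Fin 3)).powersetCard 3 = {{0, 1, 2}} := by decide
  fin_cases i
  · show eval x (esymm (Fin 3) ℂ 1) = e1 x
    rw [esymm_one]
    simp [e1, Fin.sum_univ_three]
  · show eval x (esymm (Fin 3) ℂ 2) = e2 x
    unfold esymm
    rw [h2, Finset.sum_insert (by decide), Finset.sum_insert (by decide), Finset.sum_singleton,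
      Finset.prod_pair (by decide), Finset.prod_pair (by decide), Finset.prod_pair (by decide)]
    simp [e2]
    ring
  · show eval x (esymm (Fin 3) ℂ 3) = e3 x
    unfold esymm
    rw [h3, Finset.sum_singleton, Finset.prod_insert (by decide), Finset.prod_pair (by decide)]
    simp [e3]
    ring

lemma exists_quadratic (A B : ℂ) : ∃ μ ν : ℂ, μ + ν = A ∧ μ * ν = B := by
  obtain ⟨s, hs⟩ := IsAlgClosed.exists_pow_nat_eq (A ^ 2 - 4 * B) (n := 2) (by norm_num)
  refine ⟨(A + s) / 2, (A - s) / 2, by ring, ?_⟩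
  linear_combination (-1 / 4 : ℂ) * hs

lemma eval_poly3 (g : Fin 3 → Polynomial ℂ) (P : MvPolynomial (Fin 3) ℂ) (s : ℂ) :
    (aeval g P).eval s = eval (fun i => (g i).eval s) P := by
  rw [aeval_def, eval₂_eq', Polynomial.eval_finsetSum, eval_eq']
  refine Finset.sum_congr rfl fun m _ => ?_
  rw [Polynomial.eval_mul, Polynomial.eval_prod]
  congr 1
  · simp
  · refine Finset.prod_congr rfl fun i _ => ?_
    rw [Polynomial.eval_pow]

/-- the total degree in the elementary symmetric functions is the degree in one variable -/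
lemma degree_q {q : MvPolynomial (Fin 3) ℂ} (hq : ∀ x, eval x PP = eval ![e1 x, e2 x, e3 x] q) :
    q.totalDegree ≤ 44 := by
  by_contra hlt
  push Not at hlt
  obtain ⟨n, hn⟩ : ∃ n, n = q.totalDegree := ⟨_, rfl⟩
  rw [← hn] at hlt
  have hq0 : q ≠ 0 := by
    rintro rfl
    rw [totalDegree_zero] at hn
    omega
  set Q : ℕ → MvPolynomial (Fin 3) ℂ := fun k => homogeneousComponent k q with hQ
  have hQh : ∀ k, (Q k).IsHomogeneous k := fun k => homogeneousComponent_isHomogeneous k q
  have hQn : Q n ≠ 0 := by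
    obtain ⟨m, hm, hmax⟩ := Finset.exists_mem_eq_sup q.support
      (support_nonempty.2 hq0) (fun m => m.sum fun _ e => e)
    intro h
    have h1 : coeff m (Q n) = coeff m q := by
      rw [hQ]
      simp only
      rw [coeff_homogeneousComponent, if_pos]
      rw [hn, totalDegree, hmax]
      rfl
    rw [h, coeff_zero] at h1
    exact (mem_support_iff.1 hm) h1.symm
  -- the top component vanishes
  have key : ∀ A B : ℂ, eval ![1, A, B] (Q n) = 0 := by
    intro A B
    obtain ⟨μ, ν, hA, hB⟩ := exists_quadratic A B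
    let g : Fin 3 → Polynomial ℂ := ![1 + Polynomial.C A * Polynomial.X,
      Polynomial.C A + Polynomial.C B * Polynomial.X, Polynomial.C B]
    let L : Polynomial ℂ := ∑ k ∈ Finset.range (n + 1), Polynomial.X ^ (n - k) * aeval g (Q k)
    let R : Polynomial ℂ := Polynomial.X ^ (n - 44) *
      ((1 - Polynomial.C μ * Polynomial.X ^ 21) * ((1 - Polynomial.C ν * Polynomial.X ^ 21) *
        ((Polynomial.C (μ ^ 21) * Polynomial.X - 1) * (Polynomial.C (μ ^ 21 - ν) *
          ((Polynomial.C (ν ^ 21) * Polynomial.X - 1) * Polynomial.C (ν ^ 21 - μ))))))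
    have hL : ∀ ε : ℂ, L.eval ε = ∑ k ∈ Finset.range (n + 1),
        ε ^ (n - k) * eval ![1 + A * ε, A + B * ε, B] (Q k) := by
      intro ε
      simp only [L]
      rw [Polynomial.eval_finsetSum]
      refine Finset.sum_congr rfl fun k _ => ?_
      rw [Polynomial.eval_mul, Polynomial.eval_pow, Polynomial.eval_X, eval_poly3]
      congr 3
      ext i
      fin_cases i <;> simp [g]
    have hLR : L = R := by
      have h1 : Polynomial.X * (L - R) = 0 := by
        apply Polynomial.funext
        intro ε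
        rw [Polynomial.eval_mul, Polynomial.eval_X, Polynomial.eval_zero, Polynomial.eval_sub]
        by_cases hε : ε = 0
        · rw [hε, zero_mul]
        have h2 : L.eval ε = ε ^ n * eval ![1 / ε, μ, ν] PP := by
          rw [hq]
          have h3 : ![e1 ![1 / ε, μ, ν], e2 ![1 / ε, μ, ν], e3 ![1 / ε, μ, ν]] =
              (1 / ε) • ![1 + A * ε, A + B * ε, B] := by
            rw [← hA, ← hB]
            ext i
            fin_cases i
            · simp [e1]; field_simp; try ring
            · simp [e2]; field_simp; try ring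
            · simp [e3]; field_simp
          rw [h3, hL]
          have h4 : eval ((1 / ε) • ![1 + A * ε, A + B * ε, B]) q =
              ∑ k ∈ Finset.range (n + 1), (1 / ε) ^ k *
                eval ![1 + A * ε, A + B * ε, B] (Q k) := by
            conv_lhs => rw [← sum_homogeneousComponent q]
            rw [map_sum, ← hn]
            refine Finset.sum_congr rfl fun k _ => ?_
            rw [eval_smul (hQh k)]
          rw [h4, Finset.mul_sum]
          refine Finset.sum_congr rfl fun k hk => ?_
          have hkn : k ≤ n := Nat.lt_succ_iff.1 (Finset.mem_range.1 hk)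
          have h5 : ε ^ n = ε ^ (n - k) * ε ^ k := by rw [← pow_add, Nat.sub_add_cancel hkn]
          rw [h5, one_div, inv_pow]
          field_simp
        have h6 : R.eval ε = ε ^ n * eval ![1 / ε, μ, ν] PP := by
          rw [eval_PP]
          have h5 : ε ^ n = ε ^ (n - 44) * ε ^ 44 := by
            rw [← pow_add, Nat.sub_add_cancel hlt.le]
          rw [h5]
          simp only [R, Polynomial.eval_mul, Polynomial.eval_pow, Polynomial.eval_X,
            Polynomial.eval_sub, Polynomial.eval_one, Polynomial.eval_C, Matrix.cons_val_zero,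
            Matrix.cons_val_one, Matrix.cons_val]
          rw [mul_assoc]
          congr 1
          field_simp
        rw [h2, h6, sub_self, mul_zero]
      rcases mul_eq_zero.1 h1 with h | h
      · exact absurd h Polynomial.X_ne_zero
      · exact sub_eq_zero.1 h
    have h7 := congrArg (Polynomial.eval 0) hLR
    rw [hL] at h7
    have h8 : R.eval 0 = 0 := by
      simp only [R, Polynomial.eval_mul, Polynomial.eval_pow, Polynomial.eval_X]
      rw [zero_pow (by omega), zero_mul]
    rw [h8, Finset.sum_eq_single n] at h7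
    · simpa using h7
    · intro k hk hkn
      have : k < n + 1 := Finset.mem_range.1 hk
      rw [zero_pow (by omega), zero_mul]
    · intro h
      exact absurd (Finset.mem_range.2 (Nat.lt_succ_self n)) h
  have hX : X 0 * Q n = 0 := by
    apply MvPolynomial.funext
    intro x
    rw [map_mul, eval_X, map_zero]
    by_cases hx : x 0 = 0
    · rw [hx, zero_mul]
    · have hx' : x = x 0 • ![1, x 1 / x 0, x 2 / x 0] := by
        ext i
        fin_cases i
        · simp
        · simp; field_simp
        · simp; field_simp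
      have : eval x (Q n) = 0 := by
        rw [hx', eval_smul (hQh n), key, mul_zero]
      rw [this, mul_zero]
  rcases mul_eq_zero.1 hX with h | h
  · exact X_ne_zero _ h
  · exact hQn h

/-- the form of degree 44 -/
theorem exists_G : ∃ G : MvPolynomial (Fin 3) ℂ, G ≠ 0 ∧ G.IsHomogeneous 44 ∧
    ∀ x : Fin 3 → ℂ, e3 x = 1 → eval ![e1 x, e2 x, 1] G = eval x PP := by
  obtain ⟨q, hq⟩ := exists_q
  have hdeg := degree_q hq
  have hm : ∀ m ∈ q.support, m 0 + m 1 + m 2 ≤ 44 := by
    intro m hm
    have h1 := (le_totalDegree hm).trans hdeg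
    rw [Finsupp.sum_fintype _ _ (fun _ => rfl), Fin.sum_univ_three] at h1
    exact h1
  let G : MvPolynomial (Fin 3) ℂ := ∑ m ∈ q.support,
    C (coeff m q) * (X 0 ^ m 0 * (X 1 ^ m 1 * X 2 ^ (44 - m 0 - m 1)))
  have hval : ∀ a b : ℂ, eval ![a, b, 1] G = eval ![a, b, 1] q := by
    intro a b
    rw [eval_eq' ![a, b, 1] q]
    simp only [G]
    rw [map_sum]
    refine Finset.sum_congr rfl fun m _ => ?_
    simp [Fin.prod_univ_three]
  have hG : ∀ x : Fin 3 → ℂ, e3 x = 1 → eval ![e1 x, e2 x, 1] G = eval x PP := by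
    intro x hx
    rw [hval, hq, hx]
  refine ⟨G, ?_, ?_, hG⟩
  · intro h0
    have h1 := hG ![2, 3, 1 / 6] (by simp [e3]; norm_num)
    rw [h0, map_zero, eval_PP] at h1
    simp only [Matrix.cons_val_zero, Matrix.cons_val_one, Matrix.cons_val] at h1
    norm_num at h1
  · apply IsHomogeneous.sum
    intro m hm'
    have h1 := hm m hm'
    have h := (isHomogeneous_C (Fin 3) (coeff m q)).mul
      (((isHomogeneous_X ℂ (0 : Fin 3)).pow (m 0)).mul
        (((isHomogeneous_X ℂ (1 : Fin 3)).pow (m 1)).mul
          ((isHomogeneous_X ℂ (2 : Fin 3)).pow (44 - m 0 - m 1))))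
    have hk : 0 + (1 * m 0 + (1 * m 1 + 1 * (44 - m 0 - m 1))) = 44 := by omega
    rw [hk] at h
    exact h

end Pool.Agent.R863.A2
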