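import Mathlib
import Pool.Agent.R863.A2.Poly

/-!
# The curve `t ↦ (e₁, e₂)(t, t²¹, t⁻²²)`
-/

set_option autoImplicit false

open MvPolynomial

namespace Pool.Agent.R863.A2

open Forms

/-- irreducible equation of the curve parametrised by forms of degree `n > 0` -/
theorem exists_min_curve {K : Type*} [Field K] [Infinite K] {n : ℕ} (hn : 0 < n)
    (u : Fin 3 → MvPolynomial (Fin 2) K)
    (hu : ∀ i, (u i).IsHomogeneous n) {N : MvPolynomial (Fin 3) K} (hN : N ≠ 0)
    (hNu : aeval u N = 0) :
    ∃ E : MvPolynomial (Fin 3) K, Irreducible E ∧ E.IsHomogeneous E.totalDegree ∧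
      aeval u E = 0 ∧ E.totalDegree ≤ N.totalDegree := by
  classical
  obtain ⟨E, ⟨hE0, hEu⟩, hmin⟩ : ∃ E : MvPolynomial (Fin 3) K, (E ≠ 0 ∧ aeval u E = 0) ∧
      ∀ P : MvPolynomial (Fin 3) K, P ≠ 0 → aeval u P = 0 → E.totalDegree ≤ P.totalDegree := by
    have hne : {d : ℕ | ∃ E : MvPolynomial (Fin 3) K, E ≠ 0 ∧ aeval u E = 0 ∧
        E.totalDegree = d}.Nonempty := ⟨_, N, hN, hNu, rfl⟩
    obtain ⟨E, h1, h2, h3⟩ := Nat.sInf_mem hne
    refine ⟨E, ⟨h1, h2⟩, fun P hP hPu => ?_⟩
    rw [h3]
    exact Nat.sInf_le ⟨P, hP, hPu, rfl⟩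
  refine ⟨E, ?_, ?_, hEu, hmin N hN hNu⟩
  · constructor
    · intro hunit
      obtain ⟨P, hP⟩ := hunit.exists_right_inv
      have := congrArg (aeval u) hP
      rw [map_mul, hEu, zero_mul, map_one] at this
      exact zero_ne_one this
    · intro P Q hPQ
      have hP0 : P ≠ 0 := by rintro rfl; rw [zero_mul] at hPQ; exact hE0 hPQ
      have hQ0 : Q ≠ 0 := by rintro rfl; rw [mul_zero] at hPQ; exact hE0 hPQ
      have hdeg : E.totalDegree = P.totalDegree + Q.totalDegree := by
        rw [hPQ, totalDegree_mul_of_isDomain hP0 hQ0]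
      have hor : aeval u P = 0 ∨ aeval u Q = 0 := by
        rw [hPQ, map_mul] at hEu
        exact mul_eq_zero.1 hEu
      have hunit : ∀ R : MvPolynomial (Fin 3) K, R ≠ 0 → R.totalDegree = 0 → IsUnit R := by
        intro R hR hR0
        rw [totalDegree_eq_zero_iff_eq_C] at hR0
        rw [hR0]
        refine (isUnit_iff_ne_zero.2 fun h => ?_).map C
        rw [hR0, h, C_0] at hR
        exact hR rfl
      rcases hor with h | h
      · right
        have := hmin P hP0 h
        exact hunit Q hQ0 (by omega)
      · left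
        have := hmin Q hQ0 h
        exact hunit P hP0 (by omega)
  · -- homogeneous
    have hcomp : ∀ k, aeval u (homogeneousComponent k E) = 0 := by
      intro k
      apply MvPolynomial.funext
      intro τ
      rw [map_zero]
      have h1 : ∀ c : K, ∑ i ∈ Finset.range (E.totalDegree + 1),
          (c ^ n) ^ i * eval (ev u τ) (homogeneousComponent i E) = 0 := by
        intro c
        have h2 : eval (ev u (c • τ)) E = 0 := by
          rw [← eval_aeval, hEu, map_zero]
        rw [ev_smul hu] at h2
        rw [← sum_homogeneousComponent E, map_sum] at h2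
        rw [← h2]
        refine Finset.sum_congr rfl fun i _ => ?_
        rw [eval_smul (homogeneousComponent_isHomogeneous i E)]
      rw [eval_aeval]
      by_cases hk : k < E.totalDegree + 1
      · let p : Polynomial K := ∑ i ∈ Finset.range (E.totalDegree + 1),
          Polynomial.C (eval (ev u τ) (homogeneousComponent i E)) * Polynomial.X ^ (n * i)
        have hp : p = 0 := by
          apply Polynomial.funext
          intro c
          simp only [p, Polynomial.eval_finsetSum, Polynomial.eval_mul, Polynomial.eval_C,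
            Polynomial.eval_pow, Polynomial.eval_X, Polynomial.eval_zero]
          rw [← h1 c]
          refine Finset.sum_congr rfl fun i _ => ?_
          rw [pow_mul]
          ring
        have h3 := congrArg (fun q => Polynomial.coeff q (n * k)) hp
        simp only [p, Polynomial.finsetSum_coeff, Polynomial.coeff_C_mul_X_pow,
          Polynomial.coeff_zero] at h3
        rw [Finset.sum_eq_single k] at h3
        · simpa using h3
        · intro i _ hik
          rw [if_neg]
          intro h
          exact hik (Nat.eq_of_mul_eq_mul_left hn h).symm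
        · intro h
          exact absurd (Finset.mem_range.2 hk) h
      · rw [homogeneousComponent_eq_zero _ _ (by omega)]
        simp
    have hzero : ∀ k, k ≠ E.totalDegree → homogeneousComponent k E = 0 := by
      intro k hk
      by_contra hne
      have h1 := hmin _ hne (hcomp k)
      have h2 := (homogeneousComponent_isHomogeneous k E).totalDegree hne
      rw [h2] at h1
      rcases Nat.lt_or_gt_of_ne hk with h | h
      · omega
      · exact hne (homogeneousComponent_eq_zero _ _ h)
    have h3 : E = homogeneousComponent E.totalDegree E := by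
      conv_lhs => rw [← sum_homogeneousComponent E]
      rw [Finset.sum_eq_single E.totalDegree]
      · intro i _ hi
        exact hzero i hi
      · intro h
        exact absurd (Finset.mem_range.2 (Nat.lt_succ_self _)) h
    conv_lhs => rw [h3]
    exact homogeneousComponent_isHomogeneous _ _

/-- the parametrisation by binary forms -/
noncomputable def u : Fin 3 → MvPolynomial (Fin 2) ℂ := ![
  X 0 ^ 43 * X 1 ^ 1 + X 0 ^ 23 * X 1 ^ 21 + X 0 ^ 0 * X 1 ^ 44,
  X 0 ^ 44 * X 1 ^ 0 + X 0 ^ 21 * X 1 ^ 23 + X 0 ^ 1 * X 1 ^ 43,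
  X 0 ^ 22 * X 1 ^ 22]

lemma u_hom (i : Fin 3) : (u i).IsHomogeneous 44 := by
  have h : ∀ a b : ℕ, a + b = 44 →
      (X 0 ^ a * X 1 ^ b : MvPolynomial (Fin 2) ℂ).IsHomogeneous 44 := by
    intro a b hab
    have := ((isHomogeneous_X ℂ (0 : Fin 2)).pow a).mul ((isHomogeneous_X ℂ (1 : Fin 2)).pow b)
    rw [one_mul, one_mul, hab] at this
    exact this
  fin_cases i
  · exact ((h 43 1 rfl).add (h 23 21 rfl)).add (h 0 44 rfl)
  · exact ((h 44 0 rfl).add (h 21 23 rfl)).add (h 1 43 rfl)
  · exact h 22 22 rfl

/-- the triple of eigenvalues -/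
noncomputable def lam (t : ℂ) : Fin 3 → ℂ := ![t, t ^ 21, (t ^ 22)⁻¹]

/-- the point of the curve with parameter `t` -/
noncomputable def pt (t : ℂ) : Fin 3 → ℂ := ![e1 (lam t), e2 (lam t), 1]

lemma e3_lam {t : ℂ} (ht : t ≠ 0) : e3 (lam t) = 1 := by
  simp [e3, lam]
  field_simp

lemma u_eval {t : ℂ} (ht : t ≠ 0) : ev u ![t, 1] = t ^ 22 • pt t := by
  ext i
  fin_cases i
  · simp [u, pt, lam, e1]
    field_simp
    ring
  · simp [u, pt, lam, e2]
    field_simp
    ring
  · simp [u, pt]

/-- the equation of the curve -/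
theorem exists_E : ∃ E : MvPolynomial (Fin 3) ℂ, Irreducible E ∧ E.IsHomogeneous E.totalDegree ∧
    E.totalDegree ≤ 44 ∧ aeval u E = 0 := by
  obtain ⟨G, hG0, hGh, hG⟩ := exists_G
  have hGu : aeval u G = 0 := by
    have h1 : X 0 * X 1 * aeval u G = 0 := by
      apply MvPolynomial.funext
      intro τ
      rw [map_mul, map_mul, eval_X, eval_X, map_zero, eval_aeval]
      by_cases h1 : τ 1 = 0
      · rw [h1]; ring
      by_cases h0 : τ 0 = 0
      · rw [h0]; ring
      have hτ : τ = τ 1 • ![τ 0 / τ 1, 1] := by
        ext i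
        fin_cases i
        · simp; field_simp
        · simp
      have ht : τ 0 / τ 1 ≠ 0 := div_ne_zero h0 h1
      have h2 : eval (ev u τ) G = 0 := by
        rw [hτ, ev_smul u_hom, eval_smul hGh]
        have h3 : eval (ev u ![τ 0 / τ 1, 1]) G = 0 := by
          rw [u_eval ht, eval_smul hGh]
          have h4 : eval (pt (τ 0 / τ 1)) G = 0 := by
            unfold pt
            rw [hG _ (e3_lam ht), eval_PP]
            simp [lam]
          rw [h4, mul_zero]
        rw [h3, mul_zero]
      rw [h2, mul_zero]
    rcases mul_eq_zero.1 h1 with h | h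
    · rcases mul_eq_zero.1 h with h | h <;> exact absurd h (X_ne_zero _)
    · exact h
  obtain ⟨E, h1, h2, h3, h4⟩ := exists_min_curve (n := 44) (by norm_num) u u_hom hG0 hGu
  exact ⟨E, h1, h2, h4.trans hGh.totalDegree_le, h3⟩

/-- chain rule -/
lemma chain (Φ : Fin 3 → Polynomial ℂ) (f : MvPolynomial (Fin 3) ℂ) :
    Polynomial.derivative (aeval Φ f) =
      ∑ i, aeval Φ (pderiv i f) * Polynomial.derivative (Φ i) := by
  induction f using MvPolynomial.induction_on with
  | C a =>
    simp only [pderiv_C, map_zero, zero_mul, Finset.sum_const_zero]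
    rw [aeval_C]
    simp
  | add p q hp hq =>
    simp only [map_add, hp, hq, add_mul, Finset.sum_add_distrib]
  | mul_X p j hp =>
    rw [map_mul, Polynomial.derivative_mul, hp, aeval_X]
    simp only [Derivation.leibniz, smul_eq_mul, map_add, map_mul, aeval_X, Fin.sum_univ_three]
    have h : ∀ i : Fin 3, aeval Φ (pderiv i (X j : MvPolynomial (Fin 3) ℂ)) =
        if i = j then 1 else 0 := by
      intro i
      by_cases hij : i = j
      · subst hij
        rw [pderiv_X_self, map_one, if_pos rfl]
      · rw [pderiv_X_of_ne (Ne.symm hij), map_zero, if_neg hij]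
    rw [h, h, h]
    fin_cases j <;> simp <;> ring

end Pool.Agent.R863.A2
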