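import Mathlib
import Pool.Agent.R863.A2.Curve

/-!
# Multiplicities of the curve `t ↦ (e₁, e₂)(t, t²¹, t⁻²²)`
-/

set_option autoImplicit false

open MvPolynomial

namespace Pool.Agent.R863.A2

open Forms

lemma pderiv_comm' (i j : Fin 3) (f : MvPolynomial (Fin 3) ℂ) :
    pderiv i (pderiv j f) = pderiv j (pderiv i f) := by
  induction f using MvPolynomial.induction_on with
  | C a => simp
  | add p q hp hq => simp only [map_add, hp, hq]
  | mul_X p k hp =>
    have h : ∀ a : Fin 3, ∃ c : ℂ, pderiv a (X k : MvPolynomial (Fin 3) ℂ) = C c := by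
      intro a
      by_cases hak : a = k
      · subst hak
        exact ⟨1, by rw [pderiv_X_self, C_1]⟩
      · exact ⟨0, by rw [pderiv_X_of_ne (Ne.symm hak), C_0]⟩
    obtain ⟨ci, hi⟩ := h i
    obtain ⟨cj, hj⟩ := h j
    simp only [Derivation.leibniz, smul_eq_mul, map_add, hi, hj, pderiv_C, hp]
    ring

/-- the parametrisation by polynomials -/
noncomputable def Φ : Fin 3 → Polynomial ℂ := ![
  Polynomial.X ^ 43 + Polynomial.X ^ 23 + 1, Polynomial.X ^ 44 + Polynomial.X ^ 21 + Polynomial.X,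
  Polynomial.X ^ 22]

lemma Φ_eval (t : ℂ) : (fun i => (Φ i).eval t) = ev u ![t, 1] := by
  ext i
  fin_cases i <;> simp [Φ, u]

lemma eval_aevalΦ {n : ℕ} {f : MvPolynomial (Fin 3) ℂ} (hf : f.IsHomogeneous n) {t : ℂ}
    (ht : t ≠ 0) : (aeval Φ f).eval t = (t ^ 22) ^ n * eval (pt t) f := by
  rw [eval_poly3, Φ_eval, u_eval ht, eval_smul hf]

/-- the velocity -/
noncomputable def VX (t : ℂ) : ℂ := t + 21 * t ^ 21 - 22 * (t ^ 22)⁻¹
/-- the velocity -/
noncomputable def VY (t : ℂ) : ℂ := -(t⁻¹ + 21 * (t ^ 21)⁻¹ - 22 * t ^ 22)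

lemma dΦ0 {t : ℂ} (ht : t ≠ 0) :
    (Polynomial.derivative (Φ 0)).eval t = t ^ 21 * (22 * pt t 0 + VX t) := by
  have : (Polynomial.derivative (Φ 0)).eval t = 43 * t ^ 42 + 23 * t ^ 22 := by
    simp [Φ]
    ring
  rw [this]
  simp [pt, e1, lam, VX]
  field_simp
  ring

lemma dΦ1 {t : ℂ} (ht : t ≠ 0) :
    (Polynomial.derivative (Φ 1)).eval t = t ^ 21 * (22 * pt t 1 + VY t) := by
  have : (Polynomial.derivative (Φ 1)).eval t = 44 * t ^ 43 + 21 * t ^ 20 + 1 := by
    simp [Φ]
    ring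
  rw [this]
  simp [pt, e2, lam, VY]
  field_simp
  ring

lemma dΦ2 {t : ℂ} (_ht : t ≠ 0) :
    (Polynomial.derivative (Φ 2)).eval t = t ^ 21 * (22 * pt t 2) := by
  have : (Polynomial.derivative (Φ 2)).eval t = 22 * t ^ 21 := by
    have h : Φ 2 = Polynomial.X ^ 22 := rfl
    rw [h, Polynomial.derivative_X_pow]
    simp
  rw [this]
  simp [pt]
  ring

/-- Euler's relation at a point -/
lemma euler {n : ℕ} {f : MvPolynomial (Fin 3) ℂ} (hf : f.IsHomogeneous n) (x : Fin 3 → ℂ) :
    x 0 * eval x (pderiv 0 f) + x 1 * eval x (pderiv 1 f) + x 2 * eval x (pderiv 2 f) =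
      n * eval x f := by
  have h := congrArg (eval x) hf.sum_X_mul_pderiv
  rw [map_sum, Fin.sum_univ_three] at h
  simp only [map_mul, eval_X, nsmul_eq_mul, map_natCast] at h
  exact h

section

variable {E : MvPolynomial (Fin 3) ℂ} {d : ℕ} (hE : E.IsHomogeneous d) (hEu : aeval u E = 0)

include hEu

lemma aevalΦ_E : aeval Φ E = 0 := by
  apply Polynomial.funext
  intro t
  rw [eval_poly3, Φ_eval, ← eval_aeval, hEu, map_zero, Polynomial.eval_zero]

include hE

lemma E_pt {t : ℂ} (ht : t ≠ 0) : eval (pt t) E = 0 := by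
  have h := eval_aevalΦ hE ht
  rw [aevalΦ_E hEu, Polynomial.eval_zero] at h
  exact (mul_eq_zero.1 h.symm).resolve_left (pow_ne_zero _ (pow_ne_zero _ ht))

lemma first {t : ℂ} (ht : t ≠ 0) :
    eval (pt t) (pderiv 0 E) * VX t + eval (pt t) (pderiv 1 E) * VY t = 0 := by
  have h := congrArg (Polynomial.eval t) (chain Φ E)
  rw [aevalΦ_E hEu, Polynomial.derivative_zero, Polynomial.eval_zero, Fin.sum_univ_three] at h
  simp only [Polynomial.eval_add, Polynomial.eval_mul] at h
  rw [eval_aevalΦ hE.pderiv ht, eval_aevalΦ hE.pderiv ht, eval_aevalΦ hE.pderiv ht, dΦ0 ht,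
    dΦ1 ht, dΦ2 ht] at h
  have he := euler hE (pt t)
  rw [E_pt hE hEu ht, mul_zero] at he
  have hk : (t ^ 22) ^ (d - 1) * t ^ 21 ≠ 0 :=
    mul_ne_zero (pow_ne_zero _ (pow_ne_zero _ ht)) (pow_ne_zero _ ht)
  apply (mul_eq_zero.1 (_ : (t ^ 22) ^ (d - 1) * t ^ 21 *
    (eval (pt t) (pderiv 0 E) * VX t + eval (pt t) (pderiv 1 E) * VY t) = 0)).resolve_left hk
  linear_combination -h - (t ^ 22) ^ (d - 1) * t ^ 21 * 22 * he

lemma second {t : ℂ} (ht : t ≠ 0) (hg : ∀ i, eval (pt t) (pderiv i E) = 0) :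
    eval (pt t) (pderiv 0 (pderiv 0 E)) * VX t ^ 2 +
      2 * eval (pt t) (pderiv 0 (pderiv 1 E)) * (VX t * VY t) +
      eval (pt t) (pderiv 1 (pderiv 1 E)) * VY t ^ 2 = 0 := by
  have h := congrArg (fun p => Polynomial.eval t (Polynomial.derivative p)) (chain Φ E)
  simp only [aevalΦ_E hEu, Polynomial.derivative_zero, Polynomial.eval_zero, Fin.sum_univ_three]
    at h
  simp only [Polynomial.derivative_add, Polynomial.derivative_mul, Polynomial.eval_add,
    Polynomial.eval_mul, chain, Fin.sum_univ_three] at h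
  simp only [eval_aevalΦ hE.pderiv ht, eval_aevalΦ hE.pderiv.pderiv ht, hg, dΦ0 ht,
    dΦ1 ht, dΦ2 ht, mul_zero, zero_mul, add_zero] at h
  have e0 := euler (hE.pderiv (i := 0)) (pt t)
  have e1 := euler (hE.pderiv (i := 1)) (pt t)
  have e2 := euler (hE.pderiv (i := 2)) (pt t)
  rw [hg, mul_zero] at e0 e1 e2
  rw [pderiv_comm' 1 0, pderiv_comm' 2 0] at e0
  rw [pderiv_comm' 2 1] at e1
  rw [pderiv_comm' 1 0, pderiv_comm' 2 0, pderiv_comm' 2 1] at h
  set k := (t ^ 22) ^ (d - 1 - 1) with hk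
  have hk0 : k ≠ 0 := pow_ne_zero _ (pow_ne_zero _ ht)
  have hk1 : k * t ^ 42 ≠ 0 := mul_ne_zero hk0 (pow_ne_zero _ ht)
  have h3 : k * t ^ 42 * (eval (pt t) (pderiv 0 (pderiv 0 E)) * VX t ^ 2 +
      2 * eval (pt t) (pderiv 0 (pderiv 1 E)) * (VX t * VY t) +
      eval (pt t) (pderiv 1 (pderiv 1 E)) * VY t ^ 2) = 0 := by
    linear_combination -h - k * t ^ 42 * (44 * (VX t * e0 + VY t * e1) +
      484 * (pt t 0 * e0 + pt t 1 * e1 + pt t 2 * e2))
  exact (mul_eq_zero.1 h3).resolve_left hk1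

/-- two independent branches: the point is singular -/
lemma node {t s : ℂ} (ht : t ≠ 0) (hs : s ≠ 0) (hp : pt t = pt s)
    (hdet : VX t * VY s - VX s * VY t ≠ 0) : ∀ i, eval (pt t) (pderiv i E) = 0 := by
  have h1 := first hE hEu ht
  have h2 := first hE hEu hs
  rw [← hp] at h2
  have g0 : eval (pt t) (pderiv 0 E) = 0 := by
    have : (VX t * VY s - VX s * VY t) * eval (pt t) (pderiv 0 E) = 0 := by
      linear_combination VY s * h1 - VY t * h2
    exact (mul_eq_zero.1 this).resolve_left hdet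
  have g1 : eval (pt t) (pderiv 1 E) = 0 := by
    have : (VX t * VY s - VX s * VY t) * eval (pt t) (pderiv 1 E) = 0 := by
      linear_combination VX t * h2 - VX s * h1
    exact (mul_eq_zero.1 this).resolve_left hdet
  have g2 : eval (pt t) (pderiv 2 E) = 0 := by
    have he := euler hE (pt t)
    rw [E_pt hE hEu ht, mul_zero, g0, g1] at he
    have : pt t 2 = 1 := rfl
    rw [this] at he
    linear_combination he
  intro i
  fin_cases i
  · exact g0
  · exact g1
  · exact g2

/-- three pairwise independent branches: the second derivatives vanish -/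
lemma triple {t s r : ℂ} (ht : t ≠ 0) (hs : s ≠ 0) (hr : r ≠ 0) (hps : pt t = pt s)
    (hpr : pt t = pt r) (h12 : VX t * VY s - VX s * VY t ≠ 0)
    (h13 : VX t * VY r - VX r * VY t ≠ 0) (h23 : VX s * VY r - VX r * VY s ≠ 0) :
    ∀ i j, eval (pt t) (pderiv i (pderiv j E)) = 0 := by
  have hg := node hE hEu ht hs hps h12
  have q1 := second hE hEu ht hg
  have q2 := second hE hEu hs (by rw [← hps]; exact hg)
  have q3 := second hE hEu hr (by rw [← hpr]; exact hg)
  rw [← hps] at q2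
  rw [← hpr] at q3
  set a := eval (pt t) (pderiv 0 (pderiv 0 E)) with ha
  set b := eval (pt t) (pderiv 0 (pderiv 1 E)) with hb
  set c := eval (pt t) (pderiv 1 (pderiv 1 E)) with hc
  set x1 := VX t
  set y1 := VY t
  set x2 := VX s
  set y2 := VY s
  set x3 := VX r
  set y3 := VY r
  -- the bilinear form
  have hB : a * x1 * x2 + b * (x1 * y2 + x2 * y1) + c * y1 * y2 = 0 := by
    have : (2 * (x1 * y3 - x3 * y1) * (x2 * y3 - x3 * y2)) *
        (a * x1 * x2 + b * (x1 * y2 + x2 * y1) + c * y1 * y2) = 0 := by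
      linear_combination (x2 * y3 - x3 * y2) ^ 2 * q1 + (x1 * y3 - x3 * y1) ^ 2 * q2 -
        (x1 * y2 - x2 * y1) ^ 2 * q3
    exact (mul_eq_zero.1 this).resolve_left (mul_ne_zero (mul_ne_zero two_ne_zero h13) h23)
  have e1 : a * x1 + b * y1 = 0 := by
    have : (x1 * y2 - x2 * y1) * (a * x1 + b * y1) = 0 := by
      linear_combination y2 * q1 - y1 * hB
    exact (mul_eq_zero.1 this).resolve_left h12
  have e2 : b * x1 + c * y1 = 0 := by
    have : (x1 * y2 - x2 * y1) * (b * x1 + c * y1) = 0 := by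
      linear_combination x1 * hB - x2 * q1
    exact (mul_eq_zero.1 this).resolve_left h12
  have e3 : a * x2 + b * y2 = 0 := by
    have : (x1 * y2 - x2 * y1) * (a * x2 + b * y2) = 0 := by
      linear_combination y2 * hB - y1 * q2
    exact (mul_eq_zero.1 this).resolve_left h12
  have e4 : b * x2 + c * y2 = 0 := by
    have : (x1 * y2 - x2 * y1) * (b * x2 + c * y2) = 0 := by
      linear_combination x1 * q2 - x2 * hB
    exact (mul_eq_zero.1 this).resolve_left h12
  have a0 : a = 0 := by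
    have : (x1 * y2 - x2 * y1) * a = 0 := by linear_combination y2 * e1 - y1 * e3
    exact (mul_eq_zero.1 this).resolve_left h12
  have b0 : b = 0 := by
    have : (x1 * y2 - x2 * y1) * b = 0 := by linear_combination x1 * e3 - x2 * e1
    exact (mul_eq_zero.1 this).resolve_left h12
  have c0 : c = 0 := by
    have : (x1 * y2 - x2 * y1) * c = 0 := by linear_combination x1 * e4 - x2 * e2
    exact (mul_eq_zero.1 this).resolve_left h12
  have k0 := euler (hE.pderiv (i := 0)) (pt t)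
  have k1 := euler (hE.pderiv (i := 1)) (pt t)
  have k2 := euler (hE.pderiv (i := 2)) (pt t)
  rw [hg, mul_zero] at k0 k1 k2
  rw [pderiv_comm' 1 0, pderiv_comm' 2 0, ← ha, ← hb] at k0
  rw [pderiv_comm' 2 1, ← hb, ← hc] at k1
  have hp2 : pt t 2 = 1 := rfl
  rw [hp2, one_mul] at k0 k1 k2
  have d0 : eval (pt t) (pderiv 0 (pderiv 2 E)) = 0 := by
    rw [a0, b0] at k0
    linear_combination k0
  have d1 : eval (pt t) (pderiv 1 (pderiv 2 E)) = 0 := by
    rw [b0, c0] at k1
    linear_combination k1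
  have d2 : eval (pt t) (pderiv 2 (pderiv 2 E)) = 0 := by
    rw [d0, d1] at k2
    linear_combination k2
  intro i j
  fin_cases i <;> fin_cases j
  · exact a0
  · exact b0
  · exact d0
  · show eval (pt t) (pderiv 1 (pderiv 0 E)) = 0
    rw [pderiv_comm' 1 0]; exact b0
  · exact c0
  · exact d1
  · show eval (pt t) (pderiv 2 (pderiv 0 E)) = 0
    rw [pderiv_comm' 2 0]; exact d0
  · show eval (pt t) (pderiv 2 (pderiv 1 E)) = 0
    rw [pderiv_comm' 2 1]; exact d1
  · exact d2

end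

/-! ### The branches through a point -/

/-- the velocity of the branch whose eigenvalues are `(x, y, z)` in this order -/
lemma velocity {s x y z : ℂ} (hs : s ≠ 0) (hx : s = x) (hy : s ^ 21 = y) (hz : (s ^ 22)⁻¹ = z) :
    VX s = x + 21 * y - 22 * z ∧ VY s = -(y * z + 21 * (x * z) - 22 * (x * y)) := by
  subst hx hy hz
  constructor
  · rfl
  · unfold VY
    field_simp

lemma pt_eq {s x y z : ℂ} (hx : s = x) (hy : s ^ 21 = y) (hz : (s ^ 22)⁻¹ = z) :
    pt s = ![x + y + z, x * y + x * z + y * z, 1] := by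
  subst hx hy hz
  simp [pt, e1, e2, lam]

end Pool.Agent.R863.A2
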